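import Pool.Agent.Lib.MP_226ef1_lc.U.IfaceC
import Pool.Agent.Lib.MP_226ef1_lc.Basic

/-!
# Modules IVA, IVB and FB: the criterion and the finite basis
-/

set_option autoImplicit false

namespace Pool.Agent.Lib.MP_226ef1_lc.U.H98

open Pool.Agent.Lib.MP_226ef1_lc.U

universe u v w

/-- the word with a given list of letters -/
def ofL {G : Type} (l : List G) (h : l ≠ []) : FreeSemigroup G := ⟨l.head h, l.tail⟩

theorem toL_ofL {G : Type} (l : List G) (h : l ≠ []) : toL (ofL l h) = l :=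
  List.cons_head_tail h

theorem toL_ne {G : Type} (p : FreeSemigroup G) : toL p ≠ [] := List.cons_ne_nil _ _

theorem toL_of {G : Type} (g : G) : toL (FreeSemigroup.of g) = [g] := rfl

theorem toL_mul {G : Type} (p q : FreeSemigroup G) : toL (p * q) = toL p ++ toL q := rfl

theorem coe_hom {G : Type} {T : Type u} [Semigroup T] (φ : FreeSemigroup G →ₙ* T)
    (p : FreeSemigroup G) :
    ((φ p : T) : WithOne T) = prd ((toL p).map fun g => φ (FreeSemigroup.of g)) := by
  induction p using FreeSemigroup.recOnMul with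
  | ih1 x => rw [toL_of]; simp
  | ih2 x y hx hy => rw [map_mul, WithOne.coe_mul, hx, hy, toL_mul, List.map_append, prd_append]

theorem coe_lift {G : Type} {T : Type u} [Semigroup T] (f : G → T) (p : FreeSemigroup G) :
    ((FreeSemigroup.lift f p : T) : WithOne T) = prd ((toL p).map f) := by
  rw [coe_hom]
  simp

/-- module IVA -/
theorem iva (hD : DictStatement) : IvaStatement.{u} := by
  intro J hJ h T _ hT G _ f u hu
  classical
  have : Nonempty G := ⟨u.head hu⟩
  obtain ⟨e, he⟩ := exists_injective_nat G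
  have hr : ∀ g, Function.invFun e (e g) = g := Function.leftInverse_invFun he
  let Φ : Word →ₙ* T := FreeSemigroup.lift fun x => f (Function.invFun e x)
  have hΦ : ∀ (v : List G) (hv : v.map e ≠ []),
      ((Φ (ofL (v.map e) hv) : T) : WithOne T) = prd (v.map f) := by
    intro v hv
    show ((FreeSemigroup.lift (fun x => f (Function.invFun e x)) (ofL (v.map e) hv) : T) :
      WithOne T) = _
    rw [coe_lift, toL_ofL, List.map_map]
    congr 1
    refine List.map_congr_left fun g _ => ?_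
    simp [hr]
  have hue : u.map e ≠ [] := by simpa using hu
  by_contra hcon
  obtain ⟨v, hv, hv'⟩ := hT (ofL (u.map e) hue) {q | Φ q ≠ Φ (ofL (u.map e) hue)} (by
    intro t ht φ
    by_contra hc
    push Not at hc
    apply hcon
    obtain ⟨τ, hτ, hτ2⟩ := (hD J hJ h).1 t ht
    obtain ⟨σ, hσ, hσ2⟩ := hτ2 ℕ φ
    refine ⟨τ, hτ, fun g => σ (e g), fun g => hσ _, fun v hv _ hvu => ?_⟩
    have hve : v.map e ≠ [] := by simpa using hv
    have h1 : φ (ofL (u.map e) hue) = φ (ofL (v.map e) hve) := by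
      rw [hσ2, toL_ofL, toL_ofL, List.flatMap_map, List.flatMap_map]
      exact hvu.symm
    have h2 : Φ (ofL (v.map e) hve) = Φ (ofL (u.map e) hue) := by
      by_contra h3
      exact hc _ h3 h1
    rw [← hΦ v hve, ← hΦ u hue, h2]) Φ
  exact hv hv'.symm

/-- module IVB -/
theorem ivb (hD : DictStatement) : IvbStatement.{u, v} := by
  intro J hJ h T _ G f hgen hsep p V hV Φ
  classical
  choose w hw hw2 using hgen
  let W : ℕ → List G := fun x => w (Φ (FreeSemigroup.of x))
  have hWne : ∀ x, W x ≠ [] := fun x => hw _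
  have hflat : ∀ l : List ℕ, l ≠ [] → l.flatMap W ≠ [] := by
    intro l hl hnil
    obtain ⟨x, l', rfl⟩ := List.exists_cons_of_ne_nil hl
    rw [List.flatMap_cons] at hnil
    exact hWne x (List.append_eq_nil_iff.1 hnil).1
  have hval : ∀ q : Word, ((Φ q : T) : WithOne T) = prd (((toL q).flatMap W).map f) := by
    intro q
    rw [coe_hom]
    generalize toL q = l
    induction l with
    | nil => simp
    | cons x l ih =>
      rw [List.map_cons, prd_cons, List.flatMap_cons, List.map_append, prd_append, ih, hw2]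
  obtain ⟨τ, hτ, σ, hσ, hs⟩ := hsep ((toL p).flatMap W) (hflat _ (toL_ne p))
  obtain ⟨t, ht, hφ⟩ := (hD J hJ h).2 τ hτ
  have hσ' : ∀ x, (W x).flatMap σ ≠ [] := by
    intro x hnil
    obtain ⟨g, l', hgl⟩ := List.exists_cons_of_ne_nil (hWne x)
    rw [hgl, List.flatMap_cons] at hnil
    exact hσ g (List.append_eq_nil_iff.1 hnil).1
  obtain ⟨φ, hφ2⟩ := hφ ℕ (fun x => (W x).flatMap σ) hσ'
  obtain ⟨v, hv, hv2⟩ := hV t ht φ
  refine ⟨v, hv, ?_⟩
  rw [hφ2] at hv2
  have h1 := hs ((toL v).flatMap W) (hflat _ (toL_ne v)) (fun _ _ => Set.mem_univ _) (by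
    rw [List.flatMap_assoc, List.flatMap_assoc]
    exact hv2.symm)
  rw [← hval, ← hval] at h1
  exact (WithOne.coe_inj.1 h1).symm

instance finite_sgp (t : Table) (h : t.IsSemigroup) : Finite (t.Sgp h) :=
  inferInstanceAs (Finite (Fin t.length))

/-- module FB -/
theorem fb (hD : DictStatement) : FbStatement.{u} := by
  intro J hJ h n hn
  classical
  have : Finite {t : Table // t ∈ tabs J} := (List.finite_toSet (tabs J)).to_subtype
  obtain ⟨B, hB, hB1, hB2⟩ := Pool.Agent.Lib.MP_226ef1_lc.exists_finite_basis.{u, 0, 0}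
    (fun i : {t : Table // t ∈ tabs J} => i.1.Sgp (h i.1 i.2)) n hn
  refine ⟨B, hB, fun b hb t ht => hB1 b hb ⟨t, ht⟩, ?_⟩
  intro T _ hT f u hu
  obtain ⟨⟨t, ht⟩, ψ, hψ⟩ := hB2 T hT (FreeSemigroup.lift f) (ofL u hu)
  obtain ⟨τ, hτ, hτ2⟩ := (hD J hJ h).1 t ht
  obtain ⟨σ, hσ, hσ2⟩ := hτ2 (Fin n) ψ
  refine ⟨τ, hτ, σ, hσ, fun v hv _ hvu => ?_⟩
  have h1 := hψ (ofL v hv) (by
    rw [hσ2, toL_ofL, toL_ofL]
    exact hvu)
  have h2 : ((FreeSemigroup.lift f (ofL v hv) : T) : WithOne T) =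
      ((FreeSemigroup.lift f (ofL u hu) : T) : WithOne T) := by rw [h1]
  rwa [coe_lift, coe_lift, toL_ofL, toL_ofL] at h2

end Pool.Agent.Lib.MP_226ef1_lc.U.H98
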